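import Pool.Agent.H82.NP.Targets

/-!
# Existence and boundedness of maximisers (module MAX)
-/

set_option autoImplicit false

open Metric Set Filter Topology

namespace Pool.Agent.H39.NP

open Pool.Agent.H82.NP

theorem eps0_nonneg : 0 ≤ eps0 := by
  unfold eps0
  have := Real.log_two_lt_d9
  linarith

/-- growth -/
theorem growth (n : ℕ) : ∃ X : ℝ, 0 ≤ X ∧ ∀ x : ℝ,
    Real.exp (-eps0) ≤ Real.exp (-x) * (1 + 2 * (Real.log 2 + x)) ^ n → x ≤ X := by
  have h1 := Real.tendsto_pow_mul_exp_neg_atTop_nhds_zero n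
  have h2 : Tendsto (fun x : ℝ => x + (1 / 2 + Real.log 2)) atTop atTop :=
    tendsto_atTop_add_const_right _ _ tendsto_id
  have h3 := (h1.comp h2).const_mul (2 ^ n * Real.exp (1 / 2 + Real.log 2))
  rw [mul_zero] at h3
  have h4 := h3.eventually (gt_mem_nhds (Real.exp_pos (-eps0)))
  obtain ⟨X, hX⟩ := Filter.eventually_atTop.mp h4
  refine ⟨max X 0, le_max_right _ _, fun x hx => ?_⟩
  by_contra hc
  rw [not_le] at hc
  have h5 := hX x (le_trans (le_max_left _ _) hc.le)
  simp only [Function.comp_apply] at h5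
  have h6 : 2 ^ n * Real.exp (1 / 2 + Real.log 2) *
      ((x + (1 / 2 + Real.log 2)) ^ n * Real.exp (-(x + (1 / 2 + Real.log 2)))) =
      Real.exp (-x) * (1 + 2 * (Real.log 2 + x)) ^ n := by
    have e1 : Real.exp (-x) = Real.exp (1 / 2 + Real.log 2) *
        Real.exp (-(x + (1 / 2 + Real.log 2))) := by
      rw [← Real.exp_add]; congr 1; ring
    have e2 : (1 + 2 * (Real.log 2 + x)) = 2 * (x + (1 / 2 + Real.log 2)) := by ring
    rw [e1, e2, mul_pow]
    ring
  rw [h6] at h5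
  linarith

theorem L_congr {n : ℕ} {c d τ : ℕ → ℂ} (hτ : τ 0 = 1) (h0 : (c 0).re = (d 0).re)
    (h : ∀ k, 1 ≤ k → k ≤ n → c k = d k) : L n c τ = L n d τ := by
  unfold L
  rw [Finset.sum_range_succ', Finset.sum_range_succ', Complex.add_re, Complex.add_re, hτ,
    mul_one, mul_one, h0]
  congr 2
  apply Finset.sum_congr rfl
  intro k hk
  rw [Finset.mem_range] at hk
  rw [h (k + 1) (by omega) (by omega)]

theorem CC_congr {n : ℕ} {s : ℝ} {c d : ℕ → ℂ} (h0 : (c 0).re = (d 0).re)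
    (h : ∀ k, 1 ≤ k → k ≤ n → c k = d k) (hd : d ∈ CC n s) : c ∈ CC n s := by
  intro τ hτ
  rw [L_congr hτ.1 h0 h]
  exact hd τ hτ

/-- truncation, with the constant coefficient changed by `κ` -/
noncomputable def tr (n : ℕ) (d : ℕ → ℂ) (κ : ℂ) : ℕ → ℂ :=
  fun k => if k = 0 then d 0 + κ else if k ≤ n then d k else 0

theorem ea_tr (h5 : T_EA5) (h6 : T_EA6) (n : ℕ) (d : ℕ → ℂ) (κ : ℂ) (m : ℕ) (hm : m ≤ n) :
    ea (tr n d κ) m = Complex.exp κ * ea d m := by
  rw [← h5 d κ m]
  apply h6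
  intro k hk
  unfold tr
  by_cases h : k = 0
  · rw [if_pos h, if_pos h]
  · rw [if_neg h, if_neg h, if_pos (le_trans hk hm)]

theorem tr_mem {n : ℕ} {s : ℝ} {d : ℕ → ℂ} (hd : d ∈ CC n s) (κ : ℂ) (hκ : κ.re = 0) :
    tr n d κ ∈ CC n s := by
  apply CC_congr _ _ hd
  · unfold tr
    rw [if_pos rfl, Complex.add_re, hκ, add_zero]
  · intro k hk hkn
    unfold tr
    rw [if_neg (by omega), if_pos hkn]

theorem norm_exp_of_re {κ : ℂ} (h : κ.re = 0) : ‖Complex.exp κ‖ = 1 := by
  rw [Complex.norm_exp, h, Real.exp_zero]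

/-- the bound -/
theorem bound (h2 : T_CCBD) (h4 : T_EA4) {n : ℕ} {s : ℝ} (hs : 0 < s) (hs1 : s ≤ 1)
    {c : ℕ → ℂ} (hc : c ∈ CC n s) (hsupp : ∀ k, n < k → c k = 0) :
    ‖ea c n‖ ≤ Real.exp (-(-(c 0).re)) * (1 + 2 * (Real.log 2 + -(c 0).re)) ^ n := by
  obtain ⟨hb0, hb⟩ := h2 n s c hs hs1 hc
  have hl := (Real.log_pos one_lt_two : 0 < Real.log 2)
  have hM : 0 ≤ 2 * (Real.log 2 + -(c 0).re) := by linarith
  have := h4 c (2 * (Real.log 2 + -(c 0).re)) hM (by
    intro k hk
    by_cases hkn : k ≤ n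
    · have := hb k hk hkn
      rw [sub_eq_add_neg] at this
      exact this
    · rw [hsupp k (by omega), norm_zero]
      exact hM) n
  rw [neg_neg]
  exact this

theorem isClosed_CC (hcl : T_CCCL) (n : ℕ) (s : ℝ) : IsClosed (CC n s) := by
  apply IsSeqClosed.isClosed
  intro c d hc hlim
  exact hcl n (fun _ => s) s c d hc tendsto_const_nhds (fun j => (tendsto_pi_nhds.mp hlim) j)

theorem low {s : ℝ} (hs : 0 < s) : Real.exp (-eps0) ≤ Real.exp (-(1 - s) * eps0) := by
  apply Real.exp_le_exp.mpr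
  have := mul_nonneg hs.le eps0_nonneg
  linarith

/-- normalising an element of the class -/
theorem normalise (h5 : T_EA5) (h6 : T_EA6) {n : ℕ} {s : ℝ} {d : ℕ → ℂ} (hd : d ∈ CC n s)
    (him : (d 0).im = 0) (hpos : 0 < ‖ea d n‖)
    (hmax : ∀ e ∈ CC n s, ‖ea e n‖ ≤ ‖ea d n‖) :
    Max n s (tr n d (-(Complex.arg (ea d n) : ℂ) * Complex.I)) := by
  set κ : ℂ := -(Complex.arg (ea d n) : ℂ) * Complex.I with hκ
  have hre : κ.re = 0 := by
    rw [hκ]; simp
  have him' : κ.im = -Complex.arg (ea d n) := by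
    rw [hκ]; simp
  have hea := ea_tr h5 h6 n d κ n le_rfl
  have hn : ‖ea (tr n d κ) n‖ = ‖ea d n‖ := by
    rw [hea, norm_mul, norm_exp_of_re hre, one_mul]
  refine ⟨tr_mem hd κ hre, ?_, ?_, ?_, ?_, ?_⟩
  · intro k hk
    unfold tr
    rw [if_neg (by omega), if_neg (by omega)]
  · unfold tr
    rw [if_pos rfl, Complex.add_im, him, him', zero_add, abs_neg]
    exact Complex.abs_arg_le_pi _
  · rw [hn, hea]
    have h1 := Complex.norm_mul_exp_arg_mul_I (ea d n)
    calc Complex.exp κ * ea d n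
        = Complex.exp κ * (‖ea d n‖ * Complex.exp (Complex.arg (ea d n) * Complex.I)) := by
          rw [h1]
      _ = ‖ea d n‖ * (Complex.exp κ * Complex.exp (Complex.arg (ea d n) * Complex.I)) := by
          ring
      _ = ‖ea d n‖ := by
          rw [← Complex.exp_add, hκ]
          have : -(Complex.arg (ea d n) : ℂ) * Complex.I +
              (Complex.arg (ea d n) : ℂ) * Complex.I = 0 := by ring
          rw [this, Complex.exp_zero, mul_one]
  · rw [hn]; exact hpos
  · rw [hn]; exact hmax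

theorem t_MAXEX (hcl : T_CCCL) (hbd : T_CCBD) (hcand : T_CAND) (h3 : T_EA3) (h4 : T_EA4)
    (h5 : T_EA5) (h6 : T_EA6) : T_MAXEX := by
  intro n s hn hs hs1
  obtain ⟨X, hX0, hX⟩ := growth n
  have hl := (Real.log_pos one_lt_two : 0 < Real.log 2)
  set B : ℝ := X + 2 * (Real.log 2 + X) with hB
  have hB1 : X ≤ B := by rw [hB]; linarith
  have hB2 : 2 * (Real.log 2 + X) ≤ B := by rw [hB]; linarith
  set T : Set (ℕ → ℂ) := (CC n s ∩ {c | (∀ k, n < k → c k = 0) ∧ (c 0).im = 0}) ∩
    Set.pi Set.univ (fun _ => closedBall (0 : ℂ) B) with hT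
  have hcomp : IsCompact T := by
    apply IsCompact.of_isClosed_subset (isCompact_univ_pi fun _ => isCompact_closedBall 0 B)
      _ inter_subset_right
    apply IsClosed.inter
    · apply (isClosed_CC hcl n s).inter
      have : {c : ℕ → ℂ | (∀ k, n < k → c k = 0) ∧ (c 0).im = 0} =
          (⋂ k : ℕ, ⋂ _ : n < k, {c : ℕ → ℂ | c k = 0}) ∩ {c : ℕ → ℂ | (c 0).im = 0} := by
        ext c
        simp
      rw [this]
      apply IsClosed.inter
      · apply isClosed_iInter
        intro k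
        apply isClosed_iInter
        intro _
        exact isClosed_eq (continuous_apply k) continuous_const
      · exact isClosed_eq (Complex.continuous_im.comp (continuous_apply 0)) continuous_const
    · exact isClosed_set_pi fun _ _ => isClosed_closedBall
  -- the reduction
  have hred : ∀ d ∈ CC n s, Real.exp (-eps0) ≤ ‖ea d n‖ →
      ∃ d' ∈ T, ‖ea d' n‖ = ‖ea d n‖ := by
    intro d hd hlow
    set κ : ℂ := -((d 0).im : ℂ) * Complex.I with hκ
    have hre : κ.re = 0 := by rw [hκ]; simp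
    have him : κ.im = -(d 0).im := by rw [hκ]; simp
    have hnorm : ‖ea (tr n d κ) n‖ = ‖ea d n‖ := by
      rw [ea_tr h5 h6 n d κ n le_rfl, norm_mul, norm_exp_of_re hre, one_mul]
    have hmem := tr_mem hd κ hre
    have hsupp : ∀ k, n < k → tr n d κ k = 0 := by
      intro k hk
      unfold tr
      rw [if_neg (by omega), if_neg (by omega)]
    have him0 : (tr n d κ 0).im = 0 := by
      unfold tr
      rw [if_pos rfl, Complex.add_im, him, add_neg_cancel]
    obtain ⟨hb0, hb⟩ := hbd n s _ hs hs1 hmem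
    have hx := hX _ (le_trans (le_trans hlow (le_of_eq hnorm.symm))
      (bound hbd h4 hs hs1 hmem hsupp))
    refine ⟨tr n d κ, ⟨⟨hmem, hsupp, him0⟩, ?_⟩, hnorm⟩
    intro k _
    rw [mem_closedBall_zero_iff]
    rcases Nat.eq_zero_or_pos k with hk | hk
    · rw [hk]
      have : tr n d κ 0 = ((tr n d κ 0).re : ℂ) := by
        apply Complex.ext
        · simp
        · rw [him0]; simp
      rw [this, Complex.norm_real, Real.norm_eq_abs, abs_of_nonpos hb0]
      linarith
    · by_cases hkn : k ≤ n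
      · have := hb k hk hkn
        linarith
      · rw [hsupp k (by omega), norm_zero]
        linarith
  obtain ⟨e, he, hen⟩ := hcand n s hn hs hs1
  have hlow := low hs
  obtain ⟨e', he', hen'⟩ := hred e he (le_trans hlow hen)
  have hcont : ContinuousOn (fun c : ℕ → ℂ => ‖ea c n‖) T := (h3 n).norm.continuousOn
  obtain ⟨c, hcT, hcmax⟩ := hcomp.exists_isMaxOn ⟨e', he'⟩ hcont
  have hce : Real.exp (-(1 - s) * eps0) ≤ ‖ea c n‖ := by
    have := hcmax he'
    simp only [Set.mem_ofPred_eq] at this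
    rw [hen'] at this
    linarith
  have hcmax' : ∀ d ∈ CC n s, ‖ea d n‖ ≤ ‖ea c n‖ := by
    intro d hd
    by_cases h : Real.exp (-eps0) ≤ ‖ea d n‖
    · obtain ⟨d', hd', hdn⟩ := hred d hd h
      have := hcmax hd'
      simp only [Set.mem_ofPred_eq] at this
      rw [hdn] at this
      exact this
    · rw [not_le] at h
      linarith
  exact ⟨_, normalise h5 h6 hcT.1.1 hcT.1.2.2
    (lt_of_lt_of_le (Real.exp_pos _) hce) hcmax'⟩

theorem t_MAXBD (hbd : T_CCBD) (hcand : T_CAND) (h4 : T_EA4) : T_MAXBD := by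
  intro n hn
  obtain ⟨X, hX0, hX⟩ := growth n
  have hl := (Real.log_pos one_lt_two : 0 < Real.log 2)
  refine ⟨X + Real.pi + 2 * (Real.log 2 + X), ?_⟩
  intro s c hs hs1 hmax k
  obtain ⟨e, he, hen⟩ := hcand n s hn hs hs1
  have hlow := low hs
  have h1 := hmax.max e he
  obtain ⟨hb0, hb⟩ := hbd n s _ hs hs1 hmax.mem
  have hx := hX _ (le_trans (le_trans (le_trans hlow hen) h1)
      (bound hbd h4 hs hs1 hmax.mem hmax.supp))
  have hpi := Real.pi_pos
  rcases Nat.eq_zero_or_pos k with hk | hk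
  · rw [hk]
    have h2 := Complex.norm_le_abs_re_add_abs_im (c 0)
    have h3 := hmax.im0
    rw [abs_of_nonpos hb0] at h2
    linarith
  · by_cases hkn : k ≤ n
    · have := hb k hk hkn
      linarith
    · rw [hmax.supp k (by omega), norm_zero]
      linarith

end Pool.Agent.H39.NP
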