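import Pool.Agent.H73.NP.T

/-!
# Path queries with one nested symbol: homomorphisms into the database of a word
-/

set_option autoImplicit false

namespace Pool.Agent.H39.NP

open Pool.Agent.H76.SW Pool.Agent.H73.NP

theorem one_accepts {Λ : Type} (l : Λ) (wd : List Λ) (h : wd ∈ (one l).accepts) : wd = [l] := by
  rw [NFA.mem_accepts] at h
  obtain ⟨s, hs, he⟩ := h
  have hs1 : s = 1 := hs
  subst hs1
  have h0 : ∀ wd' : List Λ, (one l).evalFrom (∅ : Set (Fin 2)) wd' = ∅ := by
    intro wd'
    induction wd' with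
    | nil => rfl
    | cons a t ih =>
      rw [NFA.evalFrom_cons]
      have : (one l).stepSet (∅ : Set (Fin 2)) a = ∅ := by
        ext t
        simp
      rw [this, ih]
  cases wd with
  | nil =>
    have h1 : (1 : Fin 2) ∈ ({0} : Set (Fin 2)) := he
    exact absurd h1 (by decide)
  | cons a t =>
    cases t with
    | nil =>
      have h1 : (1 : Fin 2) ∈ (one l).stepSet {0} a := he
      rw [NFA.mem_stepSet] at h1
      obtain ⟨t, _, ht2⟩ := h1
      have h2 : t = 0 ∧ a = l ∧ (1 : Fin 2) = 1 := ht2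
      rw [h2.2.1]
    | cons b t' =>
      exfalso
      have h1 : (1 : Fin 2) ∈
          (one l).evalFrom ((one l).stepSet ((one l).stepSet {0} a) b) t' := he
      have h2 : (one l).stepSet ((one l).stepSet {0} a) b = ∅ := by
        ext t
        rw [NFA.mem_stepSet]
        simp only [Set.mem_empty_iff_false, iff_false, not_exists, not_and]
        intro s hs hst
        rw [NFA.mem_stepSet] at hs
        obtain ⟨s', _, hs'2⟩ := hs
        have h3 : s' = 0 ∧ a = l ∧ s = 1 := hs'2
        have h4 : s = 0 ∧ b = l ∧ t = 1 := hst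
        rw [h3.2.2] at h4
        exact absurd h4.1 (by decide)
      rw [h2, h0] at h1
      exact h1

theorem beta_edges {A V : Type} {k : ℕ} {E : V → Alp A k → V → Prop} {x y : V}
    (h : (beta A k).Sat E x y) : ∃ μ : Fin (k + 3) → V,
      (∀ e, GE k e → E (μ e.1) (Sum.inr e) (μ e.2)) ∧ μ 0 = x ∧ μ (Fin.last (k + 2)) = y := by
  obtain ⟨μ, hμ, h0, h1⟩ := h
  refine ⟨μ, fun e he => ?_, h0, h1⟩
  obtain ⟨wd, hwd, hp⟩ := hμ (Fintype.equivFin {e : Fin (k + 3) × Fin (k + 3) // GE k e} ⟨e, he⟩)
  simp only [gadget, Equiv.symm_apply_apply] at hwd hp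
  have h2 := one_accepts _ _ hwd
  subst h2
  cases hp with
  | cons _ v _ _ _ hs hp' =>
    cases hp'
    simp only [Step, ext, if_true, Sum.elim_inl] at hs
    exact hs

theorem gadget_rigid {A : Type} {k : ℕ} (w : List (Lt A k))
    (μ : Fin (k + 3) → Vx k w.length)
    (h : ∀ e, GE k e → cE w (μ e.1) (Sum.inr e) (μ e.2)) :
    ∃ i, w.get i = bt ∧ ∀ s, μ s = gv i s := by
  have h01 : GE k ((0 : Fin (k + 3)), (1 : Fin (k + 3))) := by
    refine ⟨?_, Or.inl ?_⟩
    · show (0 : Fin (k + 3)) < 1
      rw [Fin.lt_def]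
      simp
    · show ((1 : Fin (k + 3)) : ℕ) ≤ k + 1
      simp
  obtain ⟨i, hi, _, h0, h1⟩ := h _ h01
  have hg1 : ∀ j : Fin w.length, (gv j (1 : Fin (k + 3)) : Vx k w.length) = Sum.inr (j, 1) := by
    intro j
    unfold gv
    rw [if_neg, if_neg]
    · rw [Fin.ext_iff]
      simp
    · rw [Fin.ext_iff]
      simp
  refine ⟨i, hi, fun s => ?_⟩
  by_cases hs0 : s = 0
  · rw [hs0]; exact h0
  by_cases hs1 : s = 1
  · rw [hs1]; exact h1
  have hs2 : (1 : Fin (k + 3)) < s := by
    have v1 : ((1 : Fin (k + 3)) : ℕ) = 1 := Fin.val_one (k + 1)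
    have e0 : (s : ℕ) ≠ 0 := fun h' => hs0 (Fin.ext h')
    have e1 : (s : ℕ) ≠ 1 := fun h' => hs1 (Fin.ext (h'.trans v1.symm))
    rw [Fin.lt_def, v1]
    omega
  obtain ⟨j, _, _, h2, h3⟩ := h ((1 : Fin (k + 3)), s) ⟨hs2, Or.inr (Or.inl (by simp))⟩
  have h4 : (gv i (1 : Fin (k + 3)) : Vx k w.length) = gv j 1 := h1.symm.trans h2
  rw [hg1, hg1] at h4
  have h5 : i = j := (Prod.ext_iff.1 (Sum.inr_injective h4)).1
  rw [h5]
  exact h3

/-- one step -/
theorem step_read {A V : Type} {k : ℕ} (w : List (Lt A k)) (E : V → Alp A k → V → Prop)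
    (π : V → Vx k w.length) (hπ : ∀ x l y, E x l y → cE w (π x) l (π y)) {x y : V} {l : Lt A k}
    (hl : Ok l) (hs : Step (ext E (fun _ : Fin 1 => (beta A k).Sat E)) x l y) :
    ∃ (i : Fin w.length) (μ : Fin (k + 3) → V), w.get i = l ∧ π x = Sum.inl i.castSucc ∧
      π y = Sum.inl i.succ ∧ (∀ a, l = lt a → E x (Sum.inl a) y) ∧
      (l = bt → (∀ e, GE k e → E (μ e.1) (Sum.inr e) (μ e.2)) ∧ μ 0 = x ∧
        μ (Fin.last (k + 2)) = y ∧ ∀ s, π (μ s) = gv i s) := by
  rcases hl with rfl | ⟨a, rfl⟩
  · have h1 : (beta A k).Sat E x y := hs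
    obtain ⟨μ, h2, h3, h4⟩ := beta_edges h1
    obtain ⟨i, h5, h6⟩ := gadget_rigid w (fun s => π (μ s)) fun e he => hπ _ _ _ (h2 e he)
    refine ⟨i, μ, h5, ?_, ?_, fun a ha => ?_, fun _ => ⟨h2, h3, h4, h6⟩⟩
    · rw [← h3, h6 0]
      rfl
    · rw [← h4, h6 (Fin.last (k + 2))]
      unfold gv
      rw [if_neg, if_pos rfl]
      rw [Fin.ext_iff]
      simp
    · exact absurd (congrArg (fun l : Lt A k => l.1.isRight) ha) (by simp [bt, lt])
  · have h1 : E x (Sum.inl a) y := hs
    obtain ⟨i, h2, h3, h4⟩ := hπ _ _ _ h1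
    refine ⟨i, fun _ => x, h2, h3, h4, fun b hb => ?_, fun hb => ?_⟩
    · have h5 := congrArg Prod.fst hb
      have h6 : a = b := Sum.inl_injective (Sum.inl_injective h5)
      rw [← h6]
      exact h1
    · exact absurd (congrArg (fun l : Lt A k => l.1.isRight) hb) (by simp [bt, lt])

/-- a path reads a part of the word -/
theorem path_read {A V : Type} {k : ℕ} (w : List (Lt A k)) (E : V → Alp A k → V → Prop)
    (π : V → Vx k w.length) (hπ : ∀ x l y, E x l y → cE w (π x) l (π y)) (v : V) :
    ∀ (w' : List (Lt A k)) (u : V) (p : ℕ) (hp : p < w.length + 1), (∀ l ∈ w', Ok l) →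
      PathB E u w' v → π u = Sum.inl ⟨p, hp⟩ →
      ∃ (x : ℕ → V) (μ : ℕ → Fin (k + 3) → V), x 0 = u ∧
        ∀ j (hj : j < w'.length), ∃ h2 : p + j < w.length,
          w.get ⟨p + j, h2⟩ = w'.get ⟨j, hj⟩ ∧ π (x j) = Sum.inl ⟨p + j, by omega⟩ ∧
          π (x (j + 1)) = Sum.inl ⟨p + j + 1, by omega⟩ ∧
          (∀ a, w'.get ⟨j, hj⟩ = lt a → E (x j) (Sum.inl a) (x (j + 1))) ∧
          (w'.get ⟨j, hj⟩ = bt → (∀ e, GE k e → E (μ j e.1) (Sum.inr e) (μ j e.2)) ∧
            μ j 0 = x j ∧ μ j (Fin.last (k + 2)) = x (j + 1) ∧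
            ∀ s, π (μ j s) = gv ⟨p + j, h2⟩ s) := by
  intro w'
  induction w' with
  | nil =>
    intro u p hp _ _ _
    exact ⟨fun _ => u, fun _ _ => u, rfl, fun j hj => absurd hj (by simp)⟩
  | cons l t ih =>
    intro u p hp hOk hpath hu
    unfold PathB at hpath
    cases hpath with
    | cons _ u1 _ _ _ hs hpath' =>
      obtain ⟨i, μ0, h1, h2, h3, h4, h5⟩ := step_read w E π hπ (hOk l (by simp)) hs
      have hpi : p = (i : ℕ) := by
        rw [hu] at h2
        have := congrArg Fin.val (Sum.inl_injective h2)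
        exact this
      subst hpi
      obtain ⟨x, μ, hx0, hx⟩ := ih u1 ((i : ℕ) + 1) (by omega)
        (fun l' hl' => hOk l' (List.mem_cons_of_mem _ hl')) hpath' h3
      refine ⟨fun j => Nat.rec u (fun n _ => x n) j, fun j => Nat.rec μ0 (fun n _ => μ n) j, rfl,
        ?_⟩
      intro j hj
      cases j with
      | zero =>
        refine ⟨by omega, h1, ?_, ?_, ?_, ?_⟩
        · exact hu
        · show π (x 0) = _
          rw [hx0]
          exact h3
        · intro a ha
          show E u (Sum.inl a) (x 0)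
          rw [hx0]
          exact h4 a ha
        · intro hb
          show (∀ e, GE k e → E (μ0 e.1) (Sum.inr e) (μ0 e.2)) ∧ μ0 0 = u ∧
            μ0 (Fin.last (k + 2)) = x 0 ∧ _
          rw [hx0]
          exact h5 hb
      | succ j =>
        obtain ⟨g1, g2, g3, g4, g5, g6⟩ := hx j (by simpa using hj)
        have e1 : (i : ℕ) + (j + 1) = (i : ℕ) + 1 + j := by omega
        refine ⟨by omega, ?_, ?_, ?_, g5, ?_⟩
        · simp only [e1]
          exact g2
        · simp only [e1]
          exact g3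
        · simp only [e1]
          exact g4
        · simp only [e1]
          exact g6

theorem pf_RIG : N_RIG := by
  intro A V k hk w w' hw hw' E π hπ u v hp
  classical
  cases w' with
  | nil =>
    refine ⟨List.nil_infix, fun h => ?_⟩
    subst h
    refine ⟨fun _ => u, fun x l y h => ?_, fun x l y h => ?_⟩
    · cases l with
      | inl a => obtain ⟨i, _⟩ := h; exact i.elim0
      | inr e => obtain ⟨i, _⟩ := h; exact i.elim0
    · cases l with
      | inl a => obtain ⟨i, _⟩ := h; exact i.elim0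
      | inr e => obtain ⟨i, _⟩ := h; exact i.elim0
  | cons l t =>
    have hstart : ∃ i : Fin w.length, π u = Sum.inl i.castSucc := by
      have hp2 := hp
      unfold PathB at hp2
      cases hp2 with
      | cons _ u1 _ _ _ hs _ =>
        obtain ⟨i, _, _, h2, _⟩ := step_read w E π hπ (hw' l (by simp)) hs
        exact ⟨i, h2⟩
    obtain ⟨i, hi⟩ := hstart
    obtain ⟨x, μ, hx0, hx⟩ := path_read w E π hπ v (l :: t) u i (by omega) hw' hp hi
    constructor
    · have hlen : (i : ℕ) + (l :: t).length ≤ w.length := by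
        obtain ⟨h2, _⟩ := hx t.length (by simp)
        simp only [List.length_cons]
        omega
      have h1 : (l :: t) = (w.drop i).take (l :: t).length := by
        apply List.ext_get
        · rw [List.length_take, List.length_drop]
          omega
        · intro j hj1 hj2
          obtain ⟨h2, h3, _⟩ := hx j hj1
          rw [← h3]
          simp
      rw [h1]
      exact (List.take_prefix _ _).isInfix.trans (List.drop_suffix _ _).isInfix
    · intro heq
      have hlen : (l :: t).length = w.length := by rw [heq]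
      have hi0 : (i : ℕ) = 0 := by
        obtain ⟨h2, _⟩ := hx t.length (by simp)
        simp only [List.length_cons] at hlen
        omega
      have hx' : ∀ j : Fin w.length,
          π (x j) = Sum.inl j.castSucc ∧ π (x (j + 1)) = Sum.inl j.succ ∧
          (∀ a, w.get j = lt a → E (x j) (Sum.inl a) (x (j + 1))) ∧
          (w.get j = bt → (∀ e, GE k e → E (μ j e.1) (Sum.inr e) (μ j e.2)) ∧
            μ j 0 = x j ∧ μ j (Fin.last (k + 2)) = x (j + 1) ∧ ∀ s, π (μ j s) = gv j s) := by
        intro j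
        obtain ⟨h2, h3, h4, h5, h6, h7⟩ := hx j (by rw [hlen]; exact j.2)
        have e1 : (i : ℕ) + (j : ℕ) = j := by omega
        simp only [e1] at h3 h4 h5 h7
        rw [← h3] at h6 h7
        exact ⟨h4, h5, h6, h7⟩
      refine ⟨fun z => Sum.elim (fun q : Fin (w.length + 1) => x q)
        (fun q : Fin w.length × Fin (k + 3) => μ q.1 q.2) z, ?_, ?_⟩
      · intro y1 l' y2 h
        cases l' with
        | inl a =>
          obtain ⟨j, h1, rfl, rfl⟩ := h
          exact (hx' j).2.2.1 a h1
        | inr e =>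
          obtain ⟨j, h1, h2, rfl, rfl⟩ := h
          obtain ⟨g1, g2, g3, g4⟩ := (hx' j).2.2.2 h1
          have hc : ∀ s, Sum.elim (fun q : Fin (w.length + 1) => x q)
              (fun q : Fin w.length × Fin (k + 3) => μ q.1 q.2) (gv j s) = μ j s := by
            intro s
            unfold gv
            split_ifs with hs hs2
            · rw [hs, g2]; rfl
            · rw [hs2, g3]; rfl
            · rfl
          show E (Sum.elim _ _ _) _ (Sum.elim _ _ _)
          rw [hc, hc]
          exact g1 e h2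
      · intro y1 l' y2 h
        cases l' with
        | inl a =>
          obtain ⟨j, h1, rfl, rfl⟩ := h
          exact ⟨(hx' j).1, (hx' j).2.1⟩
        | inr e =>
          obtain ⟨j, h1, h2, rfl, rfl⟩ := h
          obtain ⟨g1, g2, g3, g4⟩ := (hx' j).2.2.2 h1
          have hc : ∀ s, Sum.elim (fun q : Fin (w.length + 1) => x q)
              (fun q : Fin w.length × Fin (k + 3) => μ q.1 q.2) (gv j s) = μ j s := by
            intro s
            unfold gv
            split_ifs with hs hs2
            · rw [hs, g2]; rfl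
            · rw [hs2, g3]; rfl
            · rfl
          show π (Sum.elim _ _ _) = _ ∧ π (Sum.elim _ _ _) = _
          rw [hc, hc]
          exact ⟨g4 _, g4 _⟩

end Pool.Agent.H39.NP
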