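import Pool.Agent.H39.NP.MAX

/-!
# Telescoping (module TELE)
-/

set_option autoImplicit false

open Metric Set Filter Topology

namespace Pool.Agent.H39.NP

open Pool.Agent.H82.NP

theorem av_pos {F : ℂ → ℝ} (hF : Continuous F) (h0 : ∀ z, 0 ≤ F z)
    (hne : ∃ z, ‖z‖ = 1 ∧ F z ≠ 0) : 0 < av F := by
  unfold av
  rw [Real.circleAverage_def, smul_eq_mul]
  apply mul_pos (by positivity)
  obtain ⟨z, hz, hFz⟩ := hne
  have hmem : z ∈ circleMap 0 1 '' Ioc 0 (2 * Real.pi) := by
    rw [image_circleMap_Ioc, mem_sphere_zero_iff_norm, hz, abs_one]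
  obtain ⟨θ, hθ, rfl⟩ := hmem
  have hpos : 0 < F (circleMap 0 1 θ) := lt_of_le_of_ne (h0 _) (Ne.symm hFz)
  apply intervalIntegral.integral_pos (by positivity)
    (hF.comp (continuous_circleMap 0 1)).continuousOn (fun _ _ => h0 _)
  exact ⟨θ, Ioc_subset_Icc_self hθ, hpos⟩

theorem exists_ne {G : Polynomial ℂ} (h : G.eval 0 ≠ 0) : ∃ z : ℂ, ‖z‖ = 1 ∧ G.eval z ≠ 0 := by
  by_contra hc
  push Not at hc
  have h1 : Real.circleAverage (fun z => G.eval z) 0 1 = G.eval 0 := by
    apply circleAverage_of_differentiable_on_off_countable Set.countable_empty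
    · exact G.continuous.continuousOn
    · intro z _
      exact G.differentiable z
  have h2 : Real.circleAverage (fun z => G.eval z) 0 1 = Real.circleAverage (fun _ => (0 : ℂ)) 0 1 := by
    apply Real.circleAverage_congr_sphere
    intro z hz
    apply hc
    rw [abs_one] at hz
    exact mem_sphere_zero_iff_norm.mp hz
  rw [h2, Real.circleAverage_const] at h1
  exact h h1.symm

theorem sq_av_pos {G : Polynomial ℂ} (h : G.eval 0 ≠ 0) {e : ℝ} (he : 0 < e) :
    0 < av (fun z => sq G z ^ e) := by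
  apply av_pos
  · apply Continuous.rpow_const
    · unfold Pool.Agent.H82.NP.sq
      exact (G.continuous.norm).pow 2
    · intro _
      right
      exact he.le
  · intro z
    apply Real.rpow_nonneg
    unfold Pool.Agent.H82.NP.sq
    positivity
  · obtain ⟨z, hz, hG⟩ := exists_ne h
    refine ⟨z, hz, ?_⟩
    apply ne_of_gt
    apply Real.rpow_pos_of_pos
    unfold Pool.Agent.H82.NP.sq
    positivity

/-- the squared norm of the kernel polynomial -/
theorem nrm_one {n : ℕ} {s : ℝ} {c : ℕ → ℂ} {G : Polynomial ℂ} {lam : ℕ → ℂ} {m : ℕ}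
    {r : Fin m → ℝ} {ζ : Fin m → ℂ} (hM : Max n s c) (hK : KKT n s c G lam m r ζ) :
    nrm n G = 1 := by
  have h := hK.ker_eq 0 (Nat.zero_le n)
  unfold Pool.Agent.H82.NP.ker at h
  rw [if_pos (Nat.zero_le n), Nat.sub_zero, div_self] at h
  · unfold ac at h
    have h2 : ((nrm n G : ℝ) : ℂ) = 1 := by
      rw [← h]
      unfold nrm
      push_cast
      apply Finset.sum_congr rfl
      intro k _
      rw [add_zero, Complex.mul_conj, Complex.normSq_eq_norm_sq]
      push_cast
      rfl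
    exact_mod_cast h2
  · intro h0
    have := hM.pos
    rw [h0, norm_zero] at this
    exact lt_irrefl _ this

/-- one step -/
theorem step (hENV : T_ENV) {n : ℕ} {K : ℝ} (hQ0 : 0 ≤ K)
    (hQ : ∀ (G : Polynomial ℂ) (δ : ℝ), G.natDegree ≤ n →
      nrm n G = 1 → 0 ≤ δ → δ ≤ 1 / 2 →
      av (fun z => sq G z ^ (1 - δ)) ≤ 1 - δ * ent (sq G) + K * δ ^ 2)
    {s s' : ℝ} {c c' : ℕ → ℂ} {G : Polynomial ℂ} {lam : ℕ → ℂ} {m : ℕ}
    {r : Fin m → ℝ} {ζ : Fin m → ℂ} (hn : 1 ≤ n) (hs : 1 / 2 < s) (hss : s < s') (hs' : s' ≤ 1)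
    (hM : Max n s c) (hK : KKT n s c G lam m r ζ) (hM' : Max n s' c') :
    Real.log ‖ea c n‖ ≤ Real.log ‖ea c' n‖ - (s' - s) * ent (sq G) + 2 * K * (s' - s) ^ 2 := by
  have hE := hENV n s s' c c' G lam m r ζ hn (by linarith) hss hs' hM hK hM'
  have hs0 : 0 < s' := by linarith
  set δ : ℝ := 1 - s / s' with hδ
  have h1 : 1 - δ = s / s' := by rw [hδ]; ring
  have hδ0 : 0 ≤ δ := by
    rw [hδ, sub_nonneg, div_le_one hs0]
    exact hss.le
  have hδ2 : δ ≤ 1 / 2 := by
    have : 1 / 2 ≤ s / s' := by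
      rw [le_div_iff₀ hs0]
      linarith
    linarith
  have hq := hQ G δ hK.deg (nrm_one hM hK) hδ0 hδ2
  rw [h1] at hq
  have hG0 : G.eval 0 ≠ 0 := hK.zf 0 (by rw [norm_zero]; norm_num)
  have hav : 0 < av (fun z => sq G z ^ (s / s')) :=
    sq_av_pos hG0 (div_pos (by linarith) hs0)
  have hlog := Real.log_le_sub_one_of_pos hav
  have hlog2 : Real.log (av (fun z => sq G z ^ (s / s'))) ≤ - δ * ent (sq G) + K * δ ^ 2 := by
    linarith
  have hE2 := Real.log_le_log (mul_pos hM.pos (Real.exp_pos _)) hE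
  rw [Real.log_mul hM.pos.ne' (Real.exp_pos _).ne', Real.log_exp] at hE2
  have h3 : s' * Real.log (av (fun z => sq G z ^ (s / s'))) ≤
      s' * (- δ * ent (sq G) + K * δ ^ 2) := mul_le_mul_of_nonneg_left hlog2 hs0.le
  have h4 : s' * δ = s' - s := by
    rw [hδ, mul_sub, mul_one, mul_div_cancel₀ _ hs0.ne']
  have h5 : s' * δ ^ 2 ≤ 2 * (s' - s) ^ 2 := by
    have : s' * δ ^ 2 = (s' - s) * δ := by rw [pow_two, ← mul_assoc, h4]
    rw [this]
    have hd : δ ≤ 2 * (s' - s) := by
      have h7 : (1 / 2) * δ ≤ s' * δ := mul_le_mul_of_nonneg_right (by linarith) hδ0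
      linarith
    calc (s' - s) * δ ≤ (s' - s) * (2 * (s' - s)) :=
          mul_le_mul_of_nonneg_left hd (by linarith)
      _ = 2 * (s' - s) ^ 2 := by ring
  have h6 : s' * (- δ * ent (sq G) + K * δ ^ 2) ≤
      -(s' - s) * ent (sq G) + 2 * K * (s' - s) ^ 2 := by
    have e : s' * (- δ * ent (sq G) + K * δ ^ 2) =
        -(s' * δ) * ent (sq G) + K * (s' * δ ^ 2) := by ring
    rw [e, h4]
    have := mul_le_mul_of_nonneg_left h5 hQ0
    linarith
  linarith

theorem ea_tr' (h5 : T_EA5) (h6 : T_EA6) (n : ℕ) (d : ℕ → ℂ) (κ : ℂ) (m : ℕ) (hm : m ≤ n) :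
    ea (tr n d κ) m = Complex.exp κ * ea d m := ea_tr h5 h6 n d κ m hm

theorem t_TELE (hNEAR : T_NEAR) (hMX : T_MAXEX) (hKKT : T_KKT) (hENV : T_ENV) (hQUAD : T_QUAD)
    (hP1 : T_P1) (h5 : T_EA5) (h6 : T_EA6) : T_TELE := by
  intro n hn
  obtain ⟨s₁, hs₁0, hs₁1, hnear⟩ := hNEAR n hn
  obtain ⟨K, hK0, hQ⟩ := hQUAD n
  refine ⟨max s₁ (1 / 2), lt_of_lt_of_le hs₁0 (le_max_left _ _),
    max_lt hs₁1 (by norm_num), ?_⟩
  -- the maximal value
  have hmx : ∀ s : ℝ, 0 < s → s ≤ 1 → ∃ c, Max n s c := fun s h0 h1 => hMX n s hn h0 h1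
  have hex : ∃ B : ℝ → ℝ, ∀ s, 0 < s → s ≤ 1 → ∀ c, Max n s c → Real.log ‖ea c n‖ = B s := by
    classical
    refine ⟨fun s => if h : 0 < s ∧ s ≤ 1 then Real.log ‖ea (hmx s h.1 h.2).choose n‖ else 0, ?_⟩
    intro s h0 h1 c hc
    simp only [h0, h1, and_self, dif_pos]
    have hc' := (hmx s h0 h1).choose_spec
    congr 1
    exact le_antisymm (hc'.max c hc.mem) (hc.max _ hc'.mem)
  obtain ⟨B, hB⟩ := hex
  have hstep : ∀ s s', max s₁ (1 / 2) < s → s < s' → s' ≤ 1 →
      B s ≤ B s' - (s' - s) * eps0 + 2 * K * (s' - s) ^ 2 := by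
    intro s s' hs hss hs'
    have hs1 : s₁ < s := lt_of_le_of_lt (le_max_left _ _) hs
    have hs2 : 1 / 2 < s := lt_of_le_of_lt (le_max_right _ _) hs
    obtain ⟨c, hc⟩ := hmx s (by linarith) (by linarith)
    obtain ⟨c', hc'⟩ := hmx s' (by linarith) hs'
    obtain ⟨G, lam, m, r, ζ, hK⟩ := hKKT n s c hn (by linarith) (by linarith) hc
    have h1 := step hENV hK0 hQ hn hs2 hss hs' hc hK hc'
    have h2 := (hnear s hs1 (by linarith) c G lam m r ζ hc hK).1
    rw [hB s (by linarith) (by linarith) c hc, hB s' (by linarith) hs' c' hc'] at h1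
    have h3 := mul_le_mul_of_nonneg_left h2 (by linarith : 0 ≤ s' - s)
    linarith
  have hB1 : B 1 ≤ 0 := by
    obtain ⟨c, hc⟩ := hmx 1 (by norm_num) le_rfl
    obtain ⟨G, lam, m, r, ζ, hK⟩ := hKKT n 1 c hn (by norm_num) le_rfl hc
    have h1 := (hP1 n c G lam m r ζ hn hc hK).1
    rw [← hB 1 (by norm_num) le_rfl c hc]
    exact Real.log_nonpos (norm_nonneg _) h1
  have hmain : ∀ s, max s₁ (1 / 2) < s → s ≤ 1 → B s ≤ -(1 - s) * eps0 := by
    intro s hs hs1
    rcases eq_or_lt_of_le hs1 with h1 | hs1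
    · rw [h1, sub_self, neg_zero, zero_mul]
      exact hB1
    have htel : ∀ M : ℕ, B s ≤ -(1 - s) * eps0 + 2 * K * (1 - s) ^ 2 / ((M : ℝ) + 1) := by
      intro M
      have hM : (0 : ℝ) < (M : ℝ) + 1 := by positivity
      set h : ℝ := (1 - s) / ((M : ℝ) + 1) with hh
      have hhpos : 0 < h := div_pos (by linarith) hM
      have hMh : ((M : ℝ) + 1) * h = 1 - s := by
        rw [hh, mul_div_cancel₀ _ hM.ne']
      have hind : ∀ i : ℕ, i ≤ M + 1 → B s ≤ B (s + i * h) - i * h * eps0 +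
          i * (2 * K * h ^ 2) := by
        intro i
        induction i with
        | zero => intro _; simp
        | succ i ih =>
          intro hi
          have h1 := ih (by omega)
          have hi' : ((i : ℝ) + 1) ≤ (M : ℝ) + 1 := by exact_mod_cast hi
          have h2 : s + ((i : ℝ) + 1) * h ≤ 1 := by
            have := mul_le_mul_of_nonneg_right hi' hhpos.le
            linarith
          have h3 : max s₁ (1 / 2) < s + i * h := by
            have : 0 ≤ (i : ℝ) * h := by positivity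
            linarith
          have h4 := hstep (s + i * h) (s + ((i : ℝ) + 1) * h) h3 (by linarith) h2
          have e : s + ((i : ℝ) + 1) * h - (s + i * h) = h := by ring
          rw [e] at h4
          push_cast
          linarith
      have h1 := hind (M + 1) le_rfl
      push_cast at h1
      rw [hMh] at h1
      have e1 : s + (1 - s) = 1 := by ring
      rw [e1] at h1
      have e2 : ((M : ℝ) + 1) * (2 * K * h ^ 2) = 2 * K * (1 - s) ^ 2 / ((M : ℝ) + 1) := by
        rw [hh]
        field_simp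
      rw [e2] at h1
      linarith
    have hlim : Tendsto (fun M : ℕ => -(1 - s) * eps0 + 2 * K * (1 - s) ^ 2 / ((M : ℝ) + 1))
        atTop (𝓝 (-(1 - s) * eps0 + 0)) := by
      apply Tendsto.const_add
      have h1 : Tendsto (fun M : ℕ => (M : ℝ) + 1) atTop atTop :=
        tendsto_atTop_add_const_right _ _ tendsto_natCast_atTop_atTop
      exact h1.const_div_atTop _
    rw [add_zero] at hlim
    exact ge_of_tendsto' hlim htel
  intro s hs hs1 d hd
  have hs2 : 1 / 2 < s := lt_of_le_of_lt (le_max_right _ _) hs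
  have hs3 : s₁ < s := lt_of_le_of_lt (le_max_left _ _) hs
  have hle : ∀ e ∈ CC n s, ‖ea e n‖ ≤ Real.exp (-(1 - s) * eps0) := by
    intro e he
    obtain ⟨c, hc⟩ := hmx s (by linarith) (by linarith)
    have h1 := hmain s hs hs1.le
    rw [← hB s (by linarith) (by linarith) c hc] at h1
    have h2 := (Real.log_le_iff_le_exp hc.pos).mp h1
    exact le_trans (hc.max e he) h2
  refine ⟨hle d hd, ?_⟩
  intro heq k hk hkn
  -- normalise `d`
  set κ : ℂ := -((d 0).im : ℂ) * Complex.I with hκ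
  have hre : κ.re = 0 := by rw [hκ]; simp
  have him : κ.im = -(d 0).im := by rw [hκ]; simp
  have hnorm : ‖ea (tr n d κ) n‖ = ‖ea d n‖ := by
    rw [ea_tr h5 h6 n d κ n le_rfl, norm_mul, norm_exp_of_re hre, one_mul]
  have hmem := tr_mem hd κ hre
  have him0 : (tr n d κ 0).im = 0 := by
    unfold tr
    rw [if_pos rfl, Complex.add_im, him, add_neg_cancel]
  have hpos : 0 < ‖ea (tr n d κ) n‖ := by
    rw [hnorm, heq]
    exact Real.exp_pos _
  have hc := normalise h5 h6 hmem him0 hpos (fun e he => by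
    rw [hnorm, heq]
    exact hle e he)
  set κ' : ℂ := -(Complex.arg (ea (tr n d κ) n) : ℂ) * Complex.I with hκ'
  set c := tr n (tr n d κ) κ' with hcdef
  have hck : ∀ j, j ≤ n → ea c j = Complex.exp κ' * (Complex.exp κ * ea d j) := by
    intro j hj
    rw [hcdef, ea_tr h5 h6 n _ κ' j hj, ea_tr h5 h6 n d κ j hj]
  obtain ⟨G, lam, m, r, ζ, hK⟩ := hKKT n s c hn (by linarith) hs1.le hc
  have hlogc : Real.log ‖ea c n‖ = -(1 - s) * eps0 := by
    rw [hck n le_rfl, norm_mul, norm_mul, norm_exp_of_re hre, heq]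
    have hre' : κ'.re = 0 := by rw [hκ']; simp
    rw [norm_exp_of_re hre', one_mul, one_mul, Real.log_exp]
  have hent : ent (sq G) ≤ eps0 := by
    have hall : ∀ M : ℕ, ent (sq G) ≤ eps0 + 2 * K * (1 - s) / ((M : ℝ) + 1) := by
      intro M
      have hM : (0 : ℝ) < (M : ℝ) + 1 := by positivity
      set h : ℝ := (1 - s) / ((M : ℝ) + 1) with hh
      have hhpos : 0 < h := div_pos (by linarith) hM
      have hle1 : h ≤ 1 - s := by
        rw [hh, div_le_iff₀ hM]
        have : (0 : ℝ) ≤ (M : ℝ) := by positivity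
        nlinarith
      obtain ⟨c', hc'⟩ := hmx (s + h) (by linarith) (by linarith)
      have h1 := step hENV hK0 hQ hn hs2 (by linarith : s < s + h) (by linarith) hc hK hc'
      have h2 := hmain (s + h) (by linarith) (by linarith)
      rw [hB (s + h) (by linarith) (by linarith) c' hc', hlogc] at h1
      have e : s + h - s = h := by ring
      rw [e] at h1
      have h3 : h * ent (sq G) ≤ h * (eps0 + 2 * K * h) := by nlinarith
      have h4 := le_of_mul_le_mul_left h3 hhpos
      have e2 : 2 * K * h = 2 * K * (1 - s) / ((M : ℝ) + 1) := by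
        rw [hh]; ring
      rw [e2] at h4
      exact h4
    have hlim : Tendsto (fun M : ℕ => eps0 + 2 * K * (1 - s) / ((M : ℝ) + 1))
        atTop (𝓝 (eps0 + 0)) := by
      apply Tendsto.const_add
      have h1 : Tendsto (fun M : ℕ => (M : ℝ) + 1) atTop atTop :=
        tendsto_atTop_add_const_right _ _ tendsto_natCast_atTop_atTop
      exact h1.const_div_atTop _
    rw [add_zero] at hlim
    exact ge_of_tendsto' hlim hall
  have hker := (hnear s hs3 hs1 c G lam m r ζ hc hK).2 hent (n - k) (by omega) (by omega)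
  unfold Pool.Agent.H82.NP.ker at hker
  rw [if_pos (by omega), Nat.sub_sub_self (by omega : k ≤ n), div_eq_zero_iff] at hker
  have hne : ea c n ≠ 0 := by
    intro h0
    have := hc.pos
    rw [h0, norm_zero] at this
    exact lt_irrefl _ this
  rcases hker with h | h
  · rw [hck k (by omega)] at h
    rcases mul_eq_zero.mp h with h | h
    · exact absurd h (Complex.exp_ne_zero _)
    · rcases mul_eq_zero.mp h with h | h
      · exact absurd h (Complex.exp_ne_zero _)
      · exact h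
  · exact absurd h hne

end Pool.Agent.H39.NP
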